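import Pool.Agent.helper24.NR.Spec

/-!
# Row CYA of project NR: the edges of a cyclic permutation
-/

set_option autoImplicit false

namespace Pool.Agent.NR

open Finset

theorem CYA_no2 {V : Type} [Fintype V] [DecidableEq V] (σ : Equiv.Perm V) (hc : σ.IsCycle)
    (h3 : 3 ≤ σ.support.card) (v : V) (hv : v ∈ σ.support) : σ (σ v) ≠ v := by
  intro h
  have h1 : σ ^ 2 = 1 := by
    rw [hc.pow_eq_one_iff]
    exact ⟨v, Equiv.Perm.mem_support.mp hv, by rw [pow_two, Equiv.Perm.mul_apply]; exact h⟩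
  have h2 : orderOf σ ∣ 2 := orderOf_dvd_of_pow_eq_one h1
  rw [hc.orderOf] at h2
  have := Nat.le_of_dvd (by norm_num) h2
  omega

theorem CYA_mem {V : Type} [Fintype V] [DecidableEq V] (σ : Equiv.Perm V) (u v : V) :
    s(u, v) ∈ cycleEdges σ ↔ (u ∈ σ.support ∧ σ u = v) ∨ (v ∈ σ.support ∧ σ v = u) := by
  unfold cycleEdges
  rw [Finset.mem_image]
  constructor
  · rintro ⟨w, hw, he⟩
    rw [Sym2.eq_iff] at he
    rcases he with ⟨h1, h2⟩ | ⟨h1, h2⟩
    · left
      rw [← h1]
      exact ⟨hw, h2⟩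
    · right
      rw [← h1]
      exact ⟨hw, h2⟩
  · rintro (⟨hu, h⟩ | ⟨hv, h⟩)
    · exact ⟨u, hu, by rw [h]⟩
    · exact ⟨v, hv, by rw [h]; exact Sym2.eq_swap⟩

/-- Row CYA. -/
theorem CYA : CYA_stmt := by
  intro V _ _ σ hc h3
  refine ⟨?_, ?_, ?_⟩
  · intro u v h
    rw [CYA_mem] at h
    rcases h with ⟨hu, h⟩ | ⟨hv, h⟩
    · refine ⟨hu, ?_, ?_⟩
      · rw [← h]
        exact Equiv.Perm.apply_mem_support.mpr hu
      · rw [← h]
        exact (Equiv.Perm.mem_support.mp hu).symm
    · refine ⟨?_, hv, ?_⟩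
      · rw [← h]
        exact Equiv.Perm.apply_mem_support.mpr hv
      · rw [← h]
        exact Equiv.Perm.mem_support.mp hv
  · intro v hv
    refine ⟨σ v, σ.symm v, ?_, ?_⟩
    · intro h
      apply CYA_no2 σ hc h3 v hv
      rw [h, Equiv.apply_symm_apply]
    · intro w
      rw [CYA_mem]
      constructor
      · rintro (⟨-, h⟩ | ⟨-, h⟩)
        · exact Or.inl h.symm
        · right
          rw [← h, Equiv.symm_apply_apply]
      · rintro (h | h)
        · exact Or.inl ⟨hv, h.symm⟩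
        · right
          have h1 : σ w = v := by rw [h, Equiv.apply_symm_apply]
          refine ⟨?_, h1⟩
          rw [← Equiv.Perm.apply_mem_support, h1]
          exact hv
  · unfold cycleEdges
    apply Finset.card_image_of_injOn
    intro v hv w hw he
    simp only at he
    rw [Sym2.eq_iff] at he
    rcases he with ⟨h1, -⟩ | ⟨h1, h2⟩
    · exact h1
    · exfalso
      apply CYA_no2 σ hc h3 w hw
      rw [← h1, h2]

end Pool.Agent.NR
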