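import Pool.Agent.helper84.NR.Spec

/-!
# Row nrv:LIN of project NR: linear algebra over ZMod 2
-/

set_option autoImplicit false

namespace Pool.Agent.helper84.NR

open scoped Classical
open Finset

section

variable {V F : Type} [Fintype V] [Fintype F]

/-- The edges outside `U`. -/
abbrev LIN_E (M : PMap V F) (U : Sym2 V → Prop) : Type := {e : Sym2 V // IsE M.toCyc e ∧ ¬ U e}

/-- Boundary of a set of faces. -/
noncomputable def LIN_P (M : PMap V F) (U : Sym2 V → Prop) :
    (F → ZMod 2) →ₗ[ZMod 2] (LIN_E M U → ZMod 2) where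
  toFun S e := ∑ f, if OnE M.toCyc f e.1 then S f else 0
  map_add' := by
    intro S T
    funext e
    simp only [Pi.add_apply]
    rw [← Finset.sum_add_distrib]
    apply Finset.sum_congr rfl
    intro f _
    split_ifs <;> simp
  map_smul' := by
    intro c S
    funext e
    simp only [Pi.smul_apply, smul_eq_mul, RingHom.id_apply]
    rw [Finset.mul_sum]
    apply Finset.sum_congr rfl
    intro f _
    split_ifs <;> simp

/-- Boundary of a set of edges. -/
noncomputable def LIN_Q (M : PMap V F) (U : Sym2 V → Prop) (W : V → Prop) :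
    (LIN_E M U → ZMod 2) →ₗ[ZMod 2] ({v : V // ¬ W v} → ZMod 2) where
  toFun c v := ∑ e : LIN_E M U, if v.1 ∈ e.1 then c e else 0
  map_add' := by
    intro S T
    funext e
    simp only [Pi.add_apply]
    rw [← Finset.sum_add_distrib]
    apply Finset.sum_congr rfl
    intro f _
    split_ifs <;> simp
  map_smul' := by
    intro c S
    funext e
    simp only [Pi.smul_apply, smul_eq_mul, RingHom.id_apply]
    rw [Finset.mul_sum]
    apply Finset.sum_congr rfl
    intro f _
    split_ifs <;> simp

/-- The number of the edges of a face at a vertex is even. -/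
theorem LIN_even (hIDX : IDX_stmt) (M : PMap V F) (f : F) (v : V) :
    Even (univ.filter (fun e : Sym2 V => v ∈ e ∧ OnE M.toCyc f e)).card := by
  by_cases hv : OnV M.toCyc f v
  · obtain ⟨k0, rfl⟩ := hv
    obtain ⟨i1, i2, i3, i4, i5⟩ := hIDX V F M.toCyc f k0
    have h3 := M.three f
    set n := M.len f with hn
    have hinj : ∀ a b, a < n → b < n → M.bd f (k0 + a) = M.bd f (k0 + b) → a = b := i1
    have e0 : M.bd f k0 = M.bd f (k0 + 0) := rfl
    have hset : univ.filter (fun e : Sym2 V => M.bd f k0 ∈ e ∧ OnE M.toCyc f e) =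
        {s(M.bd f k0, M.bd f (k0 + 1)), s(M.bd f (k0 + (n - 1)), M.bd f k0)} := by
      ext e
      simp only [mem_filter, mem_univ, true_and, mem_insert, mem_singleton]
      constructor
      · rintro ⟨hve, hf⟩
        obtain ⟨a, ha, rfl⟩ := i3 e hf
        rw [Sym2.mem_iff] at hve
        rcases hve with h | h
        · have : 0 = a := hinj 0 a (by omega) ha h
          left
          rw [← this]
          rfl
        · right
          have ha1 : a + 1 = n := by
            by_contra hne
            have : 0 = a + 1 := hinj 0 (a + 1) (by omega) (by omega) h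
            omega
          have ha2 : a = n - 1 := by omega
          have ha3 : M.bd f (k0 + a + 1) = M.bd f k0 := h.symm
          rw [ha3, ha2]
      · rintro (rfl | rfl)
        · exact ⟨Sym2.mem_mk_left _ _, ⟨k0, rfl⟩⟩
        · refine ⟨Sym2.mem_mk_right _ _, ⟨k0 + (n - 1), ?_⟩⟩
          have : k0 + (n - 1) + 1 = k0 + n := by omega
          rw [this, i5]
    rw [hset, Finset.card_pair]
    · exact even_two
    · intro h
      rw [Sym2.eq_iff] at h
      rcases h with ⟨h, -⟩ | ⟨-, h⟩
      · have : 0 = n - 1 := hinj 0 (n - 1) (by omega) (by omega) h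
        omega
      · have : 1 = n - 1 := hinj 1 (n - 1) (by omega) (by omega) h
        omega
  · have hset : univ.filter (fun e : Sym2 V => v ∈ e ∧ OnE M.toCyc f e) = ∅ := by
      rw [Finset.filter_eq_empty_iff]
      rintro e - ⟨hve, k, rfl⟩
      rw [Sym2.mem_iff] at hve
      rcases hve with h | h
      · exact hv ⟨k, h.symm⟩
      · exact hv ⟨k + 1, h.symm⟩
    rw [hset]
    exact ⟨0, rfl⟩

theorem LIN_QP (hIDX : IDX_stmt) (M : PMap V F) (U : Sym2 V → Prop) (W : V → Prop)
    (hUW : ∀ e, U e → ∀ v ∈ e, W v) (S : F → ZMod 2) : LIN_Q M U W (LIN_P M U S) = 0 := by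
  funext v
  change ∑ e : LIN_E M U, (if v.1 ∈ e.1 then ∑ f, (if OnE M.toCyc f e.1 then S f else 0) else 0) = 0
  have h1 : ∀ e : LIN_E M U,
      (if v.1 ∈ e.1 then ∑ f, (if OnE M.toCyc f e.1 then S f else 0) else 0) =
      ∑ f, (if v.1 ∈ e.1 ∧ OnE M.toCyc f e.1 then S f else 0) := by
    intro e
    by_cases h : v.1 ∈ e.1
    · simp [h]
    · simp [h]
  rw [Finset.sum_congr rfl (fun e _ => h1 e), Finset.sum_comm]
  apply Finset.sum_eq_zero
  intro f _
  rw [← Finset.sum_filter, Finset.sum_const, nsmul_eq_mul]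
  have hc : (univ.filter (fun e : LIN_E M U => v.1 ∈ e.1 ∧ OnE M.toCyc f e.1)).card =
      (univ.filter (fun e : Sym2 V => v.1 ∈ e ∧ OnE M.toCyc f e)).card := by
    refine Finset.card_bij (fun e _ => e.1) ?_ ?_ ?_
    · intro e he
      rw [mem_filter] at he ⊢
      exact ⟨mem_univ _, he.2⟩
    · intro e _ e' _ h
      exact Subtype.ext h
    · intro e he
      rw [mem_filter] at he
      refine ⟨⟨e, ⟨f, he.2.2⟩, fun hU => v.2 (hUW e hU _ he.2.1)⟩, ?_, rfl⟩
      rw [mem_filter]
      exact ⟨mem_univ _, he.2⟩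
  rw [hc]
  obtain ⟨m, hm⟩ := LIN_even hIDX M f v.1
  rw [hm]
  push_cast
  rw [CharTwo.add_self_eq_zero, zero_mul]

/-- The indicator of a vertex. -/
noncomputable def LIN_ind (W : V → Prop) (v : V) : {v : V // ¬ W v} → ZMod 2 :=
  fun w => if w.1 = v then 1 else 0

omit [Fintype V] in
theorem LIN_ind_zero (W : V → Prop) (v : V) (hW : W v) : LIN_ind W v = 0 := by
  funext w
  have h : w.1 ≠ v := fun h => w.2 (by rw [h]; exact hW)
  simp [LIN_ind, h]

theorem LIN_step (hEDG : EDG_stmt) (M : PMap V F) (U : Sym2 V → Prop) (W : V → Prop)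
    (hUW : ∀ e, U e → ∀ v ∈ e, W v) (f : F) (u v : V) (he : OnE M.toCyc f s(u, v))
    (hu : LIN_ind W u ∈ LinearMap.range (LIN_Q M U W)) :
    LIN_ind W v ∈ LinearMap.range (LIN_Q M U W) := by
  have hne : u ≠ v := ((hEDG V F M).1 f u v he).2.2
  by_cases hU : U s(u, v)
  · have hW : W v := hUW _ hU v (Sym2.mem_mk_right _ _)
    rw [LIN_ind_zero W v hW]
    exact Submodule.zero_mem _
  · set e0 : LIN_E M U := ⟨s(u, v), ⟨f, he⟩, hU⟩ with he0
    have h1 : LIN_Q M U W (Pi.single e0 1) = LIN_ind W u + LIN_ind W v := by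
      funext w
      change ∑ e : LIN_E M U, (if w.1 ∈ e.1 then (Pi.single e0 1 : LIN_E M U → ZMod 2) e else 0) = _
      rw [Finset.sum_eq_single e0]
      · rw [Pi.single_eq_same]
        simp only [Pi.add_apply, LIN_ind, he0, Sym2.mem_iff]
        by_cases h2 : w.1 = u
        · have h3 : w.1 ≠ v := fun h => hne (h2.symm.trans h)
          simp [h2, hne]
        · by_cases h3 : w.1 = v
          · simp [h3, hne.symm]
          · simp [h2, h3]
      · intro e _ hne'
        rw [Pi.single_eq_of_ne hne']
        simp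
      · intro h
        exact absurd (mem_univ _) h
    have h2 : LIN_ind W v = LIN_Q M U W (Pi.single e0 1) - LIN_ind W u := by
      rw [h1]
      abel
    rw [h2]
    exact Submodule.sub_mem _ ⟨_, rfl⟩ hu

theorem LIN_all (hIDX : IDX_stmt) (hEDG : EDG_stmt) (M : PMap V F) (U : Sym2 V → Prop)
    (W : V → Prop) (hW : ∃ v, W v) (hUW : ∀ e, U e → ∀ v ∈ e, W v) (v : V) :
    LIN_ind W v ∈ LinearMap.range (LIN_Q M U W) := by
  -- around a face
  have round : ∀ f v0, OnV M.toCyc f v0 → LIN_ind W v0 ∈ LinearMap.range (LIN_Q M U W) →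
      ∀ v, OnV M.toCyc f v → LIN_ind W v ∈ LinearMap.range (LIN_Q M U W) := by
    intro f v0 hf h0 v hv
    obtain ⟨k0, rfl⟩ := hf
    obtain ⟨-, i2, -⟩ := hIDX V F M.toCyc f k0
    obtain ⟨a, -, rfl⟩ := i2 v hv
    clear hv
    induction a with
    | zero => exact h0
    | succ a ih =>
      exact LIN_step hEDG M U W hUW f (M.bd f (k0 + a)) (M.bd f (k0 + (a + 1)))
        ⟨k0 + a, rfl⟩ ih
  obtain ⟨w0, hw0⟩ := hW
  obtain ⟨f0, hf0⟩ := M.cover w0
  have h00 : LIN_ind W w0 ∈ LinearMap.range (LIN_Q M U W) := by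
    rw [LIN_ind_zero W w0 hw0]
    exact Submodule.zero_mem _
  have hall : ∀ g, g ∈ {f : F | ∀ v, OnV M.toCyc f v →
      LIN_ind W v ∈ LinearMap.range (LIN_Q M U W)} := by
    intro g
    refine M.conn _ ?_ f0 g (round f0 w0 hf0 h00)
    intro e f g hfe hge hf
    obtain ⟨k, rfl⟩ := hfe
    have h1 := ((hEDG V F M).1 g _ _ hge).1
    exact round g _ h1 (hf _ ⟨k, rfl⟩)
  obtain ⟨g, hg⟩ := M.cover v
  exact hall g v hg

end

/-- Row LIN. -/
theorem LIN (hIDX : IDX_stmt) (hEDG : EDG_stmt) : LIN_stmt := by
  intro V F _ _ M U W hUE hW hUW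
  -- `Q` is onto
  have hQ : LinearMap.range (LIN_Q M U W) = ⊤ := by
    rw [eq_top_iff]
    intro c _
    have hc : c = ∑ v : {v : V // ¬ W v}, c v • LIN_ind W v.1 := by
      funext w
      rw [Finset.sum_apply, Finset.sum_eq_single w]
      · simp [LIN_ind]
      · intro b _ hb
        have : w.1 ≠ b.1 := fun h => hb (Subtype.ext h.symm)
        simp [LIN_ind, this]
      · intro h
        exact absurd (mem_univ _) h
    rw [hc]
    exact Submodule.sum_mem _ fun v _ =>
      Submodule.smul_mem _ _ (LIN_all hIDX hEDG M U W hW hUW v.1)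
  -- `Q P = 0`
  have hle : LinearMap.range (LIN_P M U) ≤ LinearMap.ker (LIN_Q M U W) := by
    rintro _ ⟨S, rfl⟩
    exact LIN_QP hIDX M U W hUW S
  -- the kernel of `P`
  have hker : LinearMap.ker (LIN_P M U) ≤
      LinearMap.range (LinearMap.funLeft (ZMod 2) (ZMod 2) (Quot.mk (lk M U))) := by
    intro S hS
    rw [LinearMap.mem_ker] at hS
    have hconst : ∀ f g, lk M U f g → S f = S g := by
      rintro f g ⟨e, hU, hf, hg⟩
      by_cases hfg : f = g
      · rw [hfg]
      · obtain ⟨g', hg'ne, hg', hall⟩ := M.two e f hf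
        have hgg : g = g' := by
          rcases hall g hg with h | h
          · exact absurd h.symm hfg
          · exact h
        have h1 := congrFun hS ⟨e, ⟨f, hf⟩, hU⟩
        change ∑ h, (if OnE M.toCyc h e then S h else 0) = 0 at h1
        rw [← Finset.sum_filter] at h1
        have h2 : univ.filter (fun h => OnE M.toCyc h e) = {f, g} := by
          ext h
          simp only [mem_filter, mem_univ, true_and, mem_insert, mem_singleton]
          constructor
          · intro hh
            rw [hgg]
            exact hall h hh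
          · rintro (rfl | rfl)
            · exact hf
            · exact hg
        rw [h2, Finset.sum_pair hfg] at h1
        exact CharTwo.add_eq_zero.mp h1
    refine ⟨fun q => Quot.lift S hconst q, ?_⟩
    funext f
    rfl
  have : Fintype (Quot (lk M U)) := Fintype.ofFinite _
  have n1 := LinearMap.finrank_range_add_finrank_ker (LIN_P M U)
  have n2 := LinearMap.finrank_range_add_finrank_ker (LIN_Q M U W)
  have n3 := Submodule.finrank_mono hle
  have n4 := Submodule.finrank_mono hker
  have n5 := LinearMap.finrank_range_le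
    (LinearMap.funLeft (ZMod 2) (ZMod 2) (Quot.mk (lk M U)))
  rw [Module.finrank_fintype_fun_eq_card] at n1 n2 n5
  rw [hQ, finrank_top, Module.finrank_fintype_fun_eq_card] at n2
  have c1 : Fintype.card {v : V // ¬ W v} + (univ.filter (fun v => W v)).card = Fintype.card V := by
    rw [Fintype.card_subtype_compl, Fintype.card_subtype]
    have : (univ.filter (fun v => W v)).card ≤ Fintype.card V := Finset.card_le_univ _
    omega
  have c2 : Fintype.card (LIN_E M U) + (univ.filter (fun e => U e)).card =
      (univ.filter (fun e : Sym2 V => IsE M.toCyc e)).card := by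
    rw [Fintype.card_subtype, ← Finset.card_union_of_disjoint]
    · congr 1
      ext e
      simp only [mem_union, mem_filter, mem_univ, true_and]
      constructor
      · rintro (h | h)
        · exact h.1
        · exact hUE e h
      · intro h
        by_cases hU : U e
        · exact Or.inr hU
        · exact Or.inl ⟨h, hU⟩
    · rw [Finset.disjoint_left]
      intro e h1 h2
      rw [mem_filter] at h1 h2
      exact h1.2.2 h2.2
  rw [Nat.card_eq_fintype_card]
  unfold chi
  rw [← c1, ← c2]
  push_cast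
  omega

end Pool.Agent.helper84.NR
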